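import Pool.Agent.U946.AF.Uni

set_option autoImplicit false

/-!
# Commuting maps, linear exponents: one divergent family gives flows which diverge at all times but a set of dimension zero

The averages of the problem over `|n| ≤ N` for commuting maps and linear exponents `P_(i,j)(n) = c_(i,j) n`. `LinearCase`
is the assertion of the problem for all of them; `Case m` is the assertion for `m` commuting maps and the averages of
`∏_j f_j(T_j^n x)` (for `m = 2` this is the bilinear average of two commuting maps). `Tiny D`: for every `q > 3` the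
Hausdorff measure of `D` for the gauge `(log (1/r))^(-q)` is zero, and the Hausdorff dimension of `D` is zero.

1. `LinearCase` is equivalent to `Case m` for all `m`.
2. Let `T_1, ..., T_m` be commuting maps and `f_j` in `L^∞` such that the averages do not converge almost everywhere. Then
   on `[0,1)^m × X` (written as a probability measure on `ℝ^m × X`) there are commuting measurable measure preserving flows
   `τ_1, ..., τ_m` and `F_j` in `L^∞` such that for ALL `a > 0` outside of a tiny set the averages of `∏_j F_j(τ_j(a)^n p)`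
   do not converge almost everywhere, and the averages `(1/2V) ∫_(-V)^V ∏_j F_j(τ_j(v) p) dv` do not converge almost
   everywhere.
3. For each `m ≥ 1` the following are equivalent: `Case m`; for `m` commuting flows and `f_j` in `L^∞` the set of the times
   `a > 0` at which the averages do not converge almost everywhere is always tiny; the set of the times `a > 0` at which
   they converge almost everywhere is NEVER tiny; the continuous averages always converge almost everywhere.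
4. Let `μ` be separable and `τ_1, ..., τ_d` commuting flows. There is ONE tiny set `D` such that for all `a > 0` not in `D`,
   `T_i = τ_i(a)`, all integer matrices `c` and ALL functions in `L^∞`, for almost every `x` and all `L` the averages of
   `∏_j f_j(T_1^(c_(1,j) n) ⋯ T_d^(c_(d,j) n) x)` converge to `L` if and only if the averages over `|v| ≤ V` of
   `∏_j f_j(τ_1(c_(1,j) v) ⋯ τ_d(c_(d,j) v) x)` do. Zero-one law: the set of the `a > 0` for which the assertion of the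
   problem with linear exponents holds for `T_1, ..., T_d` (all `c`, all functions) is tiny, or the set of the `a > 0` for
   which it fails is tiny.

Proof. The flow number `j` is the suspension flow of `T_j` over its own circle (the `j`-th coordinate of the base), so that
the flows commute. The first function has a window in the base: for starting points over `[1/2, 9/16)^m` the product at
the time `v` is nonzero only for `v` in an interval of length `1/16` after an integer `n`, where it is `∏_j f_j(T_j^n x)`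
(`Pool.Agent.U946.AF.phi_eq`). The comparison of discrete and continuous one-sided averages for ALL times `a > 0` off a
tiny set is `Pool.Agent.U587.ET.bes_gnull` (helper587, hand-in `ExceptionalTimes` of MP_9721b5_an); here it is used for
the flows and for the reversed flows.
-/

namespace Pool.Agent.Results.MP_4d8f14_an.CommutingFlows

open MeasureTheory Filter Finset

universe u

/-- a measurable measure preserving flow -/
structure IsFlow {X : Type u} [MeasurableSpace X] (μ : Measure X) (τ : ℝ → X → X) : Prop where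
  meas : Measurable (fun p : ℝ × X => τ p.1 p.2)
  zero : ∀ x, τ 0 x = x
  add : ∀ s t x, τ (s + t) x = τ s (τ t x)
  mp : ∀ t, MeasurePreserving (τ t) μ μ

/-- commuting flows -/
def Flows {X : Type u} [MeasurableSpace X] (μ : Measure X) {m : ℕ} (τ : Fin m → ℝ → X → X) : Prop :=
  (∀ j, IsFlow μ (τ j)) ∧ ∀ i j s t x, τ i s (τ j t x) = τ j t (τ i s x)

/-- commuting invertible measure preserving maps -/
def Maps {X : Type u} [MeasurableSpace X] (μ : Measure X) {m : ℕ} (T : Fin m → Equiv.Perm X) : Prop :=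
  (∀ j, MeasurePreserving (fun x => T j x) μ μ ∧ MeasurePreserving (fun x => (T j)⁻¹ x) μ μ) ∧
    ∀ i j x, T i (T j x) = T j (T i x)

/-- Hausdorff measure zero for the gauge `(log (1 / r))^(-q)`: coverings by intervals of lengths `r i ≤ 1 / 2` with
`∑ (log (1 / r i))^(-q) ≤ ε`. (Points, `r i = 0`, cost nothing: in Lean `log (1 / 0) = 0` and `0 ^ (-q) = 0`.) -/
def GaugeNull (q : ℝ) (D : Set ℝ) : Prop := ∀ ε : ℝ, 0 < ε → ∃ c r : ℕ → ℝ, (∀ i, 0 ≤ r i ∧ r i ≤ 1 / 2) ∧
  D ⊆ ⋃ i, Set.Icc (c i) (c i + r i) ∧ Summable (fun i => (Real.log (1 / r i)) ^ (-q)) ∧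
  ∑' i, (Real.log (1 / r i)) ^ (-q) ≤ ε

/-- gauge null for all exponents `q > 3`, and of Hausdorff dimension zero -/
def Tiny (D : Set ℝ) : Prop := (∀ q : ℝ, 3 < q → GaugeNull q D) ∧ dimH D = 0

/-- measurable and essentially bounded -/
def Linf {X : Type u} [MeasurableSpace X] (μ : Measure X) (f : X → ℂ) : Prop :=
  AEStronglyMeasurable f μ ∧ ∃ C : ℝ, ∀ᵐ x ∂μ, ‖f x‖ ≤ C

/-- almost everywhere convergence of the averages `(1/(2N+1)) ∑_{|n| ≤ N} φ_n(x)` -/
def AEConv {X : Type u} [MeasurableSpace X] (μ : Measure X) (φ : ℤ → X → ℂ) : Prop :=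
  ∀ᵐ x ∂μ, ∃ L : ℂ, Tendsto (fun N : ℕ => (1 / (2 * (N : ℂ) + 1)) * ∑ n ∈ Icc (-(N : ℤ)) N, φ n x) atTop (nhds L)

/-- almost everywhere convergence of the averages of `∏_j f_j(T_j^n x)` -/
def Converges {X : Type u} [MeasurableSpace X] (μ : Measure X) {m : ℕ} (T : Fin m → Equiv.Perm X)
    (f : Fin m → X → ℂ) : Prop :=
  AEConv μ fun n x => ∏ j, f j ((T j ^ n) x)

/-- almost everywhere convergence at the time `a`, that is for the maps `τ_j(a)` -/
def ConvergesAt {X : Type u} [MeasurableSpace X] (μ : Measure X) {m : ℕ} (τ : Fin m → ℝ → X → X)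
    (f : Fin m → X → ℂ) (a : ℝ) : Prop :=
  AEConv μ fun n x => ∏ j, f j (τ j (a * n) x)

/-- almost everywhere convergence of the continuous averages -/
def ConvergesCont {X : Type u} [MeasurableSpace X] (μ : Measure X) {m : ℕ} (τ : Fin m → ℝ → X → X)
    (f : Fin m → X → ℂ) : Prop :=
  ∀ᵐ x ∂μ, ∃ L : ℂ, Tendsto (fun V : ℝ => (1 / (2 * (V : ℂ))) * ∫ v in (-V)..V, ∏ j, f j (τ j v x)) atTop (nhds L)

/-- the assertion of the problem for commuting maps `T_1, ..., T_d` and linear exponents `P_(i,j)(n) = c_(i,j) n` -/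
def LinearCase : Prop := ∀ (X : Type u) [MeasurableSpace X] (μ : Measure X) [IsProbabilityMeasure μ] (d m : ℕ)
  (T : Fin d → Equiv.Perm X), Maps μ T → ∀ (c : Fin d → Fin m → ℤ) (f : Fin m → X → ℂ), (∀ j, Linf μ (f j)) →
    AEConv μ fun n x => ∏ j, f j ((List.ofFn fun i => T i ^ (c i j * n)).prod x)

/-- the assertion for `m` commuting maps and the products `∏_j f_j(T_j^n x)` -/
def Case (m : ℕ) : Prop := ∀ (X : Type u) [MeasurableSpace X] (μ : Measure X) [IsProbabilityMeasure μ]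
  (T : Fin m → Equiv.Perm X), Maps μ T → ∀ f : Fin m → X → ℂ, (∀ j, Linf μ (f j)) → Converges μ T f

/-- a statement about all commuting flows `τ_1, ..., τ_m` on probability spaces and all functions in `L^∞` -/
def AllFlows (m : ℕ) (P : ∀ (X : Type u) [MeasurableSpace X], Measure X → (Fin m → ℝ → X → X) →
    (Fin m → X → ℂ) → Prop) : Prop :=
  ∀ (X : Type u) [MeasurableSpace X] (μ : Measure X) [IsProbabilityMeasure μ] (τ : Fin m → ℝ → X → X), Flows μ τ →
    ∀ f : Fin m → X → ℂ, (∀ j, Linf μ (f j)) → P X μ τ f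

/-- `τ_1(c_1 v) τ_2(c_2 v) ⋯ τ_d(c_d v) x`; for `v = a n` and `T_i = τ_i(a)` this is `T_1^(c_1 n) ⋯ T_d^(c_d n) x` -/
def move {X : Type u} {d : ℕ} (τ : Fin d → ℝ → X → X) (c : Fin d → ℤ) (v : ℝ) (x : X) : X :=
  (List.ofFn fun i => τ i (c i * v)).foldr (fun h y => h y) x

/-- the assertion of the problem with linear exponents for the maps `T_i = τ_i(a)`: all `c`, all functions -/
def HoldsAt {X : Type u} [MeasurableSpace X] (μ : Measure X) {d : ℕ} (τ : Fin d → ℝ → X → X) (a : ℝ) : Prop :=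
  ∀ (m : ℕ) (c : Fin d → Fin m → ℤ) (f : Fin m → X → ℂ), (∀ j, Linf μ (f j)) →
    AEConv μ fun n x => ∏ j, f j (move τ (fun i => c i j) (a * n) x)

/-- one exceptional set of times for all integer matrices and all functions, and the zero-one law -/
def OneSet {X : Type u} [MeasurableSpace X] (μ : Measure X) {d : ℕ} (τ : Fin d → ℝ → X → X) : Prop :=
  (∃ D : Set ℝ, Tiny D ∧ ∀ a : ℝ, 0 < a → a ∉ D → ∀ (m : ℕ) (c : Fin d → Fin m → ℤ) (f : Fin m → X → ℂ),
    (∀ j, Linf μ (f j)) → ∀ᵐ x ∂μ, ∀ L : ℂ,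
      (Tendsto (fun N : ℕ => (1 / (2 * (N : ℂ) + 1)) * ∑ n ∈ Icc (-(N : ℤ)) N,
        ∏ j, f j (move τ (fun i => c i j) (a * n) x)) atTop (nhds L) ↔
      Tendsto (fun V : ℝ => (1 / (2 * (V : ℂ))) * ∫ v in (-V)..V, ∏ j, f j (move τ (fun i => c i j) v x))
        atTop (nhds L))) ∧
  (Tiny {a : ℝ | 0 < a ∧ ¬ HoldsAt μ τ a} ∨ Tiny {a : ℝ | 0 < a ∧ HoldsAt μ τ a})

lemma Tiny.mono {D D' : Set ℝ} (h : Tiny D') (hD : D ⊆ D') : Tiny D := by
  refine ⟨fun q hq ε hε => ?_, ?_⟩
  · obtain ⟨c, r, h1, h2, h3⟩ := h.1 q hq ε hε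
    exact ⟨c, r, h1, hD.trans h2, h3⟩
  · refine le_antisymm ?_ (zero_le)
    rw [← h.2]
    exact dimH_mono hD

lemma Tiny.of {D D' : Set ℝ} (h : ∀ q : ℝ, 3 < q → Pool.Agent.U587.ET.GNull q D') (hD : D ⊆ D') : Tiny D := by
  refine ⟨fun q hq => Pool.Agent.U587.ET.gnull_real ((h q hq).mono hD), ?_⟩
  exact Pool.Agent.U587.ET.gnull_dimH (q := 4) (by norm_num) ((h 4 (by norm_num)).mono hD)

lemma flow_of {X : Type u} [MeasurableSpace X] {μ : Measure X} {τ : ℝ → X → X} (h : IsFlow μ τ) :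
    Pool.Agent.Y957.MC.IsFlow μ τ := ⟨h.meas, h.zero, h.add, h.mp⟩

lemma of_flow {X : Type u} [MeasurableSpace X] {μ : Measure X} {τ : ℝ → X → X}
    (h : Pool.Agent.Y957.MC.IsFlow μ τ) : IsFlow μ τ := ⟨h.meas, h.zero, h.add, h.mp⟩

lemma dimH_Ioi : dimH (Set.Ioi (0 : ℝ)) = 1 := by
  have h := Real.dimH_of_nonempty_interior (E := ℝ) (s := Set.Ioi (0 : ℝ)) (by
    rw [interior_Ioi]
    exact ⟨1, by norm_num⟩)
  rw [h]
  simp

lemma not_both {D D' : Set ℝ} (hD : Tiny D) (hD' : Tiny D') : ¬ Set.Ioi (0 : ℝ) ⊆ D ∪ D' := by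
  intro hsub
  have h1 := dimH_mono hsub
  rw [dimH_union, hD.2, hD'.2, dimH_Ioi] at h1
  simp at h1

/-- the comparison at all times off a tiny set -/
lemma compare {X : Type u} [MeasurableSpace X] (μ : Measure X) [IsProbabilityMeasure μ] {m : ℕ}
    {τ : Fin m → ℝ → X → X} (hτ : ∀ j, IsFlow μ (τ j)) {f : Fin m → X → ℂ} (hf : ∀ j, Linf μ (f j)) :
    ∃ D : Set ℝ, Tiny D ∧ ∀ a : ℝ, 0 < a → a ∉ D → (ConvergesAt μ τ f a ↔ ConvergesCont μ τ f) := by
  obtain ⟨D, hD, h⟩ := Pool.Agent.U946.AF.compare (μ := μ) (fun j => flow_of (hτ j)) (fun j => (hf j).1)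
    (fun j => (hf j).2)
  refine ⟨D, Tiny.of hD le_rfl, fun a ha haD => ?_⟩
  have h2 := h a ha haD
  constructor
  · intro hc
    filter_upwards [hc, h2] with x hx hx2
    obtain ⟨L, hL⟩ := hx
    exact ⟨L, (hx2 L).1 hL⟩
  · intro hc
    filter_upwards [hc, h2] with x hx hx2
    obtain ⟨L, hL⟩ := hx
    exact ⟨L, (hx2 L).2 hL⟩

/-- two versions of the functions -/
lemma conv_congr {X : Type u} [MeasurableSpace X] {μ : Measure X} {m : ℕ} {T : Fin m → Equiv.Perm X}
    (hT : ∀ j, Pool.Agent.U946.AF.IsAut μ (T j)) {f g : Fin m → X → ℂ} (hfg : ∀ j, f j =ᵐ[μ] g j) :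
    Converges μ T f → Converges μ T g := by
  intro hc
  have h1 : ∀ᵐ x ∂μ, ∀ (j : Fin m) (n : ℤ), f j ((T j ^ n) x) = g j ((T j ^ n) x) := by
    rw [ae_all_iff]
    intro j
    rw [ae_all_iff]
    intro n
    have h2 : Pool.Agent.U946.AF.IsAut μ (T j ^ n) :=
      (Pool.Agent.U946.AF.autGrp μ).zpow_mem (show T j ∈ Pool.Agent.U946.AF.autGrp μ from hT j) n
    exact h2.1.quasiMeasurePreserving.ae (hfg j)
  unfold Converges AEConv at hc ⊢
  filter_upwards [hc, h1] with x hx hx1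
  obtain ⟨L, hL⟩ := hx
  refine ⟨L, hL.congr fun N => ?_⟩
  congr 1
  exact sum_congr rfl fun n _ => prod_congr rfl fun j _ => hx1 j n

/-- the amplification -/
lemma amplify {X : Type u} [MeasurableSpace X] (μ : Measure X) [IsProbabilityMeasure μ] {m : ℕ} (hm : 1 ≤ m)
    {T : Fin m → Equiv.Perm X} (hT : Maps μ T) {f : Fin m → X → ℂ} (hf : ∀ j, Linf μ (f j))
    (hbad : ¬ Converges μ T f) : ∃ (ν : Measure ((Fin m → ℝ) × X)) (τ : Fin m → ℝ → (Fin m → ℝ) × X → (Fin m → ℝ) × X)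
      (F : Fin m → (Fin m → ℝ) × X → ℂ), IsProbabilityMeasure ν ∧ Flows ν τ ∧ (∀ j, Linf ν (F j)) ∧
      Tiny {a : ℝ | 0 < a ∧ ConvergesAt ν τ F a} ∧ ¬ ConvergesCont ν τ F := by
  obtain ⟨M, rfl⟩ : ∃ M, m = M + 1 := ⟨m - 1, by omega⟩
  choose f' hf'm hf'b hff' using fun j => Pool.Agent.Y957.MC.exists_version (hf j).1 (hf j).2
  choose Cf hCf using hf'b
  obtain ⟨C, hC⟩ : ∃ C : ℝ, ∀ j, |Cf j| ≤ C :=
    ⟨∑ j, |Cf j|, fun j => single_le_sum (fun i _ => abs_nonneg (Cf i)) (mem_univ j)⟩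
  have hb : ∀ j x, ‖f' j x‖ ≤ C := fun j x => (hCf j x).trans ((le_abs_self _).trans (hC j))
  have hTa : ∀ j, Pool.Agent.U946.AF.IsAut μ (T j) := fun j => hT.1 j
  have hbad' : ¬ Converges μ T f' := fun hc => hbad (conv_congr hTa (fun j => (hff' j).symm) hc)
  have hTm : ∀ j, MeasurePreserving (Pool.Agent.U946.AF.toME (hTa j)) μ μ := fun j => (hTa j).1
  have hfl : Flows ((Pool.Agent.U946.AF.lamp (M + 1)).prod μ)
      (Pool.Agent.U946.AF.ms fun j => Pool.Agent.U946.AF.toME (hTa j)) :=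
    ⟨fun j => of_flow (Pool.Agent.U946.AF.ms_flow hTm j),
      Pool.Agent.U946.AF.ms_comm fun i j x => hT.2 i j x⟩
  have hF : ∀ j, Linf ((Pool.Agent.U946.AF.lamp (M + 1)).prod μ) (Pool.Agent.U946.AF.Fn f' j) := fun j =>
    ⟨(Pool.Agent.U946.AF.Fn_meas hf'm j).aestronglyMeasurable, C,
      ae_of_all _ fun p => Pool.Agent.U946.AF.Fn_bd hb j p⟩
  have hcont : ¬ ConvergesCont ((Pool.Agent.U946.AF.lamp (M + 1)).prod μ)
      (Pool.Agent.U946.AF.ms fun j => Pool.Agent.U946.AF.toME (hTa j)) (Pool.Agent.U946.AF.Fn f') :=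
    Pool.Agent.U946.AF.amp_cont hTm hf'm hb hbad'
  refine ⟨(Pool.Agent.U946.AF.lamp (M + 1)).prod μ, _, Pool.Agent.U946.AF.Fn f', inferInstance, hfl, hF, ?_, hcont⟩
  obtain ⟨D, hD, hD2⟩ := compare _ hfl.1 hF
  have hsub : {a : ℝ | 0 < a ∧ ConvergesAt ((Pool.Agent.U946.AF.lamp (M + 1)).prod μ)
      (Pool.Agent.U946.AF.ms fun j => Pool.Agent.U946.AF.toME (hTa j)) (Pool.Agent.U946.AF.Fn f') a} ⊆ D := by
    rintro a ⟨ha0, ha⟩
    by_contra haD
    exact hcont ((hD2 a ha0 haD).1 ha)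
  exact hD.mono hsub

/-- the maps at the time `a` -/
lemma at_of_case {m : ℕ} (h : Case.{u} m) {X : Type u} [MeasurableSpace X] (μ : Measure X) [IsProbabilityMeasure μ]
    {τ : Fin m → ℝ → X → X} (hτ : Flows μ τ) {f : Fin m → X → ℂ} (hf : ∀ j, Linf μ (f j)) (a : ℝ) :
    ConvergesAt μ τ f a := by
  have hτ' := fun j => flow_of (hτ.1 j)
  have h1 := h X μ (fun j => Pool.Agent.U946.AF.fperm (hτ' j) a)
    ⟨fun j => Pool.Agent.U946.AF.fperm_aut (hτ' j) a, fun i j x => hτ.2 i j a a x⟩ f hf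
  unfold Converges at h1
  simp only [Pool.Agent.U946.AF.fperm_zpow] at h1
  exact h1

lemma ofFn_single {G : Type*} [Monoid G] {m : ℕ} (g : Fin m → G) (j : Fin m) (h : ∀ i, i ≠ j → g i = 1) :
    (List.ofFn g).prod = g j := by
  induction m with
  | zero => exact j.elim0
  | succ m ih =>
    rw [List.ofFn_succ, List.prod_cons]
    by_cases hj : j = 0
    · subst hj
      rw [List.prod_eq_one, mul_one]
      intro x hx
      obtain ⟨i, rfl⟩ := (List.mem_ofFn' _ _).1 hx
      exact h _ (Fin.succ_ne_zero i)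
    · obtain ⟨k, rfl⟩ := Fin.exists_succ_eq.2 hj
      rw [h 0 (Fin.succ_ne_zero k).symm, one_mul]
      exact ih (fun i => g i.succ) k fun i hi => h _ fun hc => hi (Fin.succ_injective _ hc)

lemma linear_iff : LinearCase.{u} ↔ ∀ m, Case.{u} m := by
  constructor
  · intro h m X _ μ _ T hT f hf
    have h1 := h X μ m m T hT (fun i j => if i = j then 1 else 0) f hf
    have h2 : ∀ (n : ℤ) (j : Fin m), (List.ofFn fun i => T i ^ ((if i = j then 1 else 0) * n)).prod = T j ^ n := by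
      intro n j
      rw [ofFn_single _ j fun i hi => by rw [if_neg hi, zero_mul, zpow_zero]]
      rw [if_pos rfl, one_mul]
    simp only [h2] at h1
    exact h1
  · intro h X _ μ _ d m T hT c f hf
    have hcomm : ∀ i j, Commute (T i) (T j) := fun i j => Equiv.ext fun x => hT.2 i j x
    have hU : ∀ j, (List.ofFn fun i => T i ^ c i j).prod ∈ Pool.Agent.U946.AF.autGrp μ := by
      intro j
      refine Subgroup.list_prod_mem _ fun x hx => ?_
      obtain ⟨i, rfl⟩ := (List.mem_ofFn' _ _).1 hx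
      exact Subgroup.zpow_mem _ (hT.1 i) _
    have hUc : ∀ i j, Commute (List.ofFn fun k => T k ^ c k i).prod (List.ofFn fun k => T k ^ c k j).prod := by
      intro i j
      refine Commute.list_prod_left _ _ fun x hx => Commute.list_prod_right _ _ fun y hy => ?_
      obtain ⟨k, rfl⟩ := (List.mem_ofFn' _ _).1 hx
      obtain ⟨l, rfl⟩ := (List.mem_ofFn' _ _).1 hy
      exact (hcomm k l).zpow_zpow _ _
    have h1 := h m X μ (fun j => (List.ofFn fun i => T i ^ c i j).prod)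
      ⟨fun j => hU j, fun i j x => congrArg (fun σ : Equiv.Perm X => σ x) (hUc i j).eq⟩ f hf
    have h2 : ∀ (n : ℤ) (j : Fin m), (List.ofFn fun i => T i ^ (c i j * n)).prod =
        (List.ofFn fun i => T i ^ c i j).prod ^ n := by
      intro n j
      rw [← Pool.Agent.U946.AF.list_zpow n (List.ofFn fun i => T i ^ c i j), List.map_ofFn]
      · congr 2
        funext i
        exact zpow_mul _ _ _
      · intro a ha b hb
        obtain ⟨k, rfl⟩ := (List.mem_ofFn' _ _).1 ha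
        obtain ⟨l, rfl⟩ := (List.mem_ofFn' _ _).1 hb
        exact (hcomm k l).zpow_zpow _ _
    unfold Converges at h1
    simp only [← h2] at h1
    exact h1

lemma one_set {X : Type u} [MeasurableSpace X] (μ : Measure X) [IsProbabilityMeasure μ] [IsSeparable μ] {d : ℕ}
    {τ : Fin d → ℝ → X → X} (hτ : Flows μ τ) : OneSet μ τ := by
  obtain ⟨D, hD, h⟩ := Pool.Agent.U946.AF.uniform (μ := μ) (fun i => flow_of (hτ.1 i)) hτ.2
  have hmove : ∀ (c : Fin d → ℤ) (v : ℝ) (x : X), Pool.Agent.U946.AF.lf τ c v x = move τ c v x := fun c v x =>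
    Pool.Agent.U946.AF.lf_eq τ c v x
  simp only [hmove] at h
  have h' : ∀ a : ℝ, 0 < a → a ∉ D → ∀ (m : ℕ) (c : Fin d → Fin m → ℤ) (f : Fin m → X → ℂ),
    (∀ j, Linf μ (f j)) → ∀ᵐ x ∂μ, ∀ L : ℂ,
      (Tendsto (fun N : ℕ => (1 / (2 * (N : ℂ) + 1)) * ∑ n ∈ Icc (-(N : ℤ)) N,
        ∏ j, f j (move τ (fun i => c i j) (a * n) x)) atTop (nhds L) ↔
      Tendsto (fun V : ℝ => (1 / (2 * (V : ℂ))) * ∫ v in (-V)..V, ∏ j, f j (move τ (fun i => c i j) v x))
        atTop (nhds L)) := fun a ha haD m c f hf => h a ha haD m c f (fun j => (hf j).1) fun j => (hf j).2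
  refine ⟨⟨D, Tiny.of hD le_rfl, h'⟩, ?_⟩
  by_cases hP : ∀ (m : ℕ) (c : Fin d → Fin m → ℤ) (f : Fin m → X → ℂ), (∀ j, Linf μ (f j)) →
    ∀ᵐ x ∂μ, ∃ L : ℂ, Tendsto (fun V : ℝ => (1 / (2 * (V : ℂ))) *
      ∫ v in (-V)..V, ∏ j, f j (move τ (fun i => c i j) v x)) atTop (nhds L)
  · left
    refine Tiny.of hD ?_
    rintro a ⟨ha, hn⟩
    by_contra haD
    apply hn
    intro m c f hf
    filter_upwards [hP m c f hf, h' a ha haD m c f hf] with x hx hx2
    obtain ⟨L, hL⟩ := hx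
    exact ⟨L, (hx2 L).2 hL⟩
  · right
    refine Tiny.of hD ?_
    rintro a ⟨ha, hn⟩
    by_contra haD
    apply hP
    intro m c f hf
    filter_upwards [hn m c f hf, h' a ha haD m c f hf] with x hx hx2
    obtain ⟨L, hL⟩ := hx
    exact ⟨L, (hx2 L).1 hL⟩

theorem result :
    -- linear exponents: products `∏_j f_j(T_j^n x)` are enough
    (LinearCase.{u} ↔ ∀ m, Case.{u} m) ∧
    -- amplification
    (∀ (X : Type u) [MeasurableSpace X] (μ : Measure X) [IsProbabilityMeasure μ] (m : ℕ), 1 ≤ m →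
      ∀ T : Fin m → Equiv.Perm X, Maps μ T → ∀ f : Fin m → X → ℂ, (∀ j, Linf μ (f j)) → ¬ Converges μ T f →
      ∃ (ν : Measure ((Fin m → ℝ) × X)) (τ : Fin m → ℝ → (Fin m → ℝ) × X → (Fin m → ℝ) × X)
        (F : Fin m → (Fin m → ℝ) × X → ℂ), IsProbabilityMeasure ν ∧ Flows ν τ ∧ (∀ j, Linf ν (F j)) ∧
        Tiny {a : ℝ | 0 < a ∧ ConvergesAt ν τ F a} ∧ ¬ ConvergesCont ν τ F) ∧
    -- the equivalences
    (∀ m, 1 ≤ m → [Case.{u} m,
      AllFlows.{u} m fun _ _ μ τ f => Tiny {a : ℝ | 0 < a ∧ ¬ ConvergesAt μ τ f a},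
      AllFlows.{u} m fun _ _ μ τ f => ¬ Tiny {a : ℝ | 0 < a ∧ ConvergesAt μ τ f a},
      AllFlows.{u} m fun _ _ μ τ f => ConvergesCont μ τ f].TFAE) ∧
    -- one set of times for all integer matrices and all functions, zero-one law
    (∀ (X : Type u) [MeasurableSpace X] (μ : Measure X) [IsProbabilityMeasure μ], IsSeparable μ → ∀ (d : ℕ)
      (τ : Fin d → ℝ → X → X), Flows μ τ → OneSet μ τ) := by
  refine ⟨linear_iff, fun X _ μ _ m hm T hT f hf hbad => amplify μ hm hT hf hbad, fun m hm => ?_,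
    fun X _ μ _ hsep d τ hτ => one_set μ hτ⟩
  have h12 : Case.{u} m → AllFlows.{u} m fun _ _ μ τ f => Tiny {a : ℝ | 0 < a ∧ ¬ ConvergesAt μ τ f a} := by
    intro hQ X _ μ _ τ hτ f hf
    have hempty : {a : ℝ | 0 < a ∧ ¬ ConvergesAt μ τ f a} ⊆ (∅ : Set ℝ) := by
      rintro a ⟨-, ha⟩
      exact ha (at_of_case hQ μ hτ hf a)
    exact Tiny.of (fun q hq => Pool.Agent.U587.ET.gnull_empty (by linarith)) hempty
  have h23 : (AllFlows.{u} m fun _ _ μ τ f => Tiny {a : ℝ | 0 < a ∧ ¬ ConvergesAt μ τ f a}) →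
      AllFlows.{u} m fun _ _ μ τ f => ¬ Tiny {a : ℝ | 0 < a ∧ ConvergesAt μ τ f a} := by
    intro h2 X _ μ _ τ hτ f hf hcon
    refine not_both (h2 X μ τ hτ f hf) hcon fun a ha => ?_
    by_cases hc : ConvergesAt μ τ f a
    · exact Or.inr ⟨ha, hc⟩
    · exact Or.inl ⟨ha, hc⟩
  have h34 : (AllFlows.{u} m fun _ _ μ τ f => ¬ Tiny {a : ℝ | 0 < a ∧ ConvergesAt μ τ f a}) →
      AllFlows.{u} m fun _ _ μ τ f => ConvergesCont μ τ f := by
    intro h3 X _ μ _ τ hτ f hf
    by_contra hcon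
    obtain ⟨D, hD, hD2⟩ := compare μ hτ.1 hf
    apply h3 X μ τ hτ f hf
    have hsub : {a : ℝ | 0 < a ∧ ConvergesAt μ τ f a} ⊆ D := by
      rintro a ⟨ha0, ha⟩
      by_contra haD
      exact hcon ((hD2 a ha0 haD).1 ha)
    exact hD.mono hsub
  have h41 : (AllFlows.{u} m fun _ _ μ τ f => ConvergesCont μ τ f) → Case.{u} m := by
    intro h4 X _ μ _ T hT f hf
    by_contra hbad
    obtain ⟨ν, τ, F, hν, hτ, hF, -, hcont⟩ := amplify μ hm hT hf hbad
    exact hcont (h4 _ ν τ hτ F hF)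
  tfae_have 1 → 2 := h12
  tfae_have 2 → 3 := h23
  tfae_have 3 → 4 := h34
  tfae_have 4 → 1 := h41
  tfae_finish

end Pool.Agent.Results.MP_4d8f14_an.CommutingFlows
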