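import Pool.Agent.U527.Et.Fin

set_option autoImplicit false

/-!
# The same polynomial for all maps: all times outside a set of Hausdorff dimension less than one

Let `τ_1, ..., τ_m` be measurable measure preserving flows on a separable probability space `(X, μ)`, with NO relation
between them, and `d ≥ 1`. There is ONE set `D` of real numbers, of Hausdorff dimension at most
`1 - 1 / (d 2^(4 d + 6))`, such that for ALL `a > 0` outside of `D`, all integer polynomials `P` of degree in `[1, d]`
with positive leading coefficient and all `f_1, ..., f_m` in `L^∞`, with the maps `T_j = τ_j(a)`: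

1. the difference of the averages over `1 ≤ n ≤ N` of `∏ f_j(T_j^(P(n)) x)` and of the averages over `0 ≤ v ≤ N` of
   `∏ f_j(τ_j(a P(v)) x)` tends to zero in `L²(μ)`;
2. if `T_1, ..., T_m` satisfy the pointwise ergodic theorem for one function along `P` (this is a theorem of Bourgain,
   for every `a`), then for almost every `x` and all `L`: the averages of `∏ f_j(T_j^(P(n)) x)` converge to `L` if and
   only if the averages over `0 ≤ v ≤ V` of `∏ f_j(τ_j(v) x)` converge to `L`.

The second averages in 2 depend neither on `P` nor on `a`: at all times outside of `D` the almost everywhere convergence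
of the multiple averages for one polynomial `P` (for instance `P(n) = n`) is equivalent to that for every other one, with
the same limit. For `τ_j(t) = τ(c_j t)` and `m = 2` they converge by Bourgain's theorem on double recurrence. There is
a second part for real polynomials (`D` depends on `P`).

The starting result `PolynomialTimes` has almost every `a`, with a null set which depends on the functions, and one
direction (from `P(n) = n` to `P`); `ExceptionalTimes` is about polynomials of distinct degrees, where the limit is a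
product of conditional expectations. In 2 there is no formula for the limit.

Proof (`Pool.Agent.U527.Et`). Let `f_j` be Lipschitz along the flows. By van der Corput and Parseval in the variable
`log a` the mean square over `a ∈ [1, 2]` of the difference of the averages of `F(a P(n))` and `F(a P(v))` over
`N / (j + 1) < n, v ≤ N` is at most `C N^(-1 / 2^(4 d + 6))`, uniformly for all `F` bounded by 1 with one modulus of
continuity, so for `F(v) = ∏ f_j(τ_j(v) x)` and all `x`. Its mean square over `x` is Lipschitz in `a` with constant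
`O(N^d)`, and a covering argument along `N = l^q`, `q → ∞`, gives the dimension. A countable family of such functions is
dense in `L¹`. At a fixed time outside of `D` the averages over `[0, N]` of `F(a P(v))` are weighted averages of `F`, and
conversely; the errors of the approximation are controlled by the invariance of the measure, and almost everywhere by the
ergodic theorems for one function, which give the integral of the limit.
-/

namespace Pool.Agent.Results.MP_4d8f14_an.ExceptionalPolynomialTimes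

open MeasureTheory Filter Finset

universe u

/-- a measurable measure preserving flow -/
structure IsFlow {X : Type u} [MeasurableSpace X] (μ : Measure X) (τ : ℝ → X → X) : Prop where
  meas : Measurable (fun p : ℝ × X => τ p.1 p.2)
  zero : ∀ x, τ 0 x = x
  add : ∀ s t x, τ (s + t) x = τ s (τ t x)
  mp : ∀ t, MeasurePreserving (τ t) μ μ

/-- `f` is in `L^∞` -/
def EssBdd {X : Type u} [MeasurableSpace X] (μ : Measure X) (f : X → ℂ) : Prop :=
  AEStronglyMeasurable f μ ∧ ∃ C : ℝ, ∀ᵐ x ∂μ, ‖f x‖ ≤ C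

/-- The pointwise ergodic theorem for one function at the times `a P(n)`: for all `h` in `L^∞` the averages over
`1 ≤ n ≤ N` of `h(τ(a P(n)) x)` converge for almost every `x`. -/
def OneFunction {X : Type u} [MeasurableSpace X] (μ : Measure X) (τ : ℝ → X → X) (P : Polynomial ℝ) (a : ℝ) : Prop :=
  ∀ h : X → ℂ, EssBdd μ h → ∀ᵐ x ∂μ, ∃ L : ℂ,
    Tendsto (fun N : ℕ => (1 / (N : ℂ)) * ∑ n ∈ Icc 1 N, h (τ (a * P.eval (n : ℝ)) x)) atTop (nhds L)

/-- the averages over `1 ≤ n ≤ N` of `∏ f_j(τ_j(a P(n)) x)` -/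
noncomputable def davg {X : Type u} {m : ℕ} (τ : Fin m → ℝ → X → X) (P : Polynomial ℝ) (f : Fin m → X → ℂ)
    (a : ℝ) (N : ℕ) (x : X) : ℂ :=
  (1 / (N : ℂ)) * ∑ n ∈ Icc 1 N, ∏ j, f j (τ j (a * P.eval (n : ℝ)) x)

/-- the averages over `0 ≤ v ≤ N` of `∏ f_j(τ_j(a P(v)) x)` -/
noncomputable def cavg {X : Type u} {m : ℕ} (τ : Fin m → ℝ → X → X) (P : Polynomial ℝ) (f : Fin m → X → ℂ)
    (a : ℝ) (N : ℕ) (x : X) : ℂ :=
  (1 / (N : ℂ)) * ∫ v in (0 : ℝ)..N, ∏ j, f j (τ j (a * P.eval v) x)

/-- the averages over `0 ≤ v ≤ V` of `∏ f_j(τ_j(v) x)` -/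
noncomputable def lavg {X : Type u} {m : ℕ} (τ : Fin m → ℝ → X → X) (f : Fin m → X → ℂ) (V : ℝ) (x : X) : ℂ :=
  (1 / (V : ℂ)) * ∫ v in (0 : ℝ)..V, ∏ j, f j (τ j v x)

/-- an integer polynomial as a real polynomial -/
noncomputable def toReal (P : Polynomial ℤ) : Polynomial ℝ := P.map (Int.castRingHom ℝ)

lemma dm_eq (d : ℕ) : Pool.Agent.U527.Et.dm d = ENNReal.ofReal (1 - 1 / (d * 2 ^ (4 * d + 6) : ℝ)) := by
  unfold Pool.Agent.U527.Et.dm
  congr 2
  push_cast
  rfl

lemma sg_of {X : Type u} [MeasurableSpace X] {μ : Measure X} {τ : ℝ → X → X} {P : Polynomial ℝ} {a : ℝ}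
    (h : OneFunction μ τ P a) : Pool.Agent.U587.DX.Sg μ τ P a := by
  intro g hg hgb
  obtain ⟨C, hC⟩ := hgb
  filter_upwards [h (fun x => (g x : ℂ)) ⟨(Complex.measurable_ofReal.comp hg).aestronglyMeasurable, C,
    ae_of_all _ fun x => by rw [Complex.norm_real]; exact hC x⟩] with x hx
  obtain ⟨L, hL⟩ := hx
  refine ⟨L.re, ((Complex.continuous_re.tendsto L).comp hL).congr fun N => ?_⟩
  simp only [Function.comp]
  rw [show (1 / (N : ℂ)) * ∑ n ∈ Icc 1 N, ((g (τ (a * P.eval (n : ℝ)) x) : ℝ) : ℂ) =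
    (((1 / (N : ℝ)) * ∑ n ∈ Icc 1 N, g (τ (a * P.eval (n : ℝ)) x) : ℝ) : ℂ) by push_cast; rfl, Complex.ofReal_re]

lemma countable_intPoly : Countable (Polynomial ℤ) := by
  have h : Function.Injective (fun p : Polynomial ℤ => (List.ofFn fun i : Fin (p.natDegree + 1) => p.coeff i)) := by
    intro p q hpq
    simp only at hpq
    have h1 := congrArg List.length hpq
    simp only [List.length_ofFn] at h1
    ext n
    by_cases hn : n < p.natDegree + 1
    · have h2 : (List.ofFn fun i : Fin (p.natDegree + 1) => p.coeff i)[n]? =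
        (List.ofFn fun i : Fin (q.natDegree + 1) => q.coeff i)[n]? := by rw [hpq]
      have hn' : n < q.natDegree + 1 := by omega
      rw [List.getElem?_eq_getElem (by simpa using hn), List.getElem?_eq_getElem (by simpa using hn')] at h2
      simpa only [Option.some.injEq, List.getElem_ofFn] using h2
    · rw [Polynomial.coeff_eq_zero_of_natDegree_lt (by omega), Polynomial.coeff_eq_zero_of_natDegree_lt (by omega)]
  exact h.countable

/-- **One exceptional set of Hausdorff dimension less than one: discrete multiple averages along a polynomial and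
continuous multiple averages.** -/
theorem result (X : Type u) [MeasurableSpace X] (μ : Measure X) [IsProbabilityMeasure μ] [IsSeparable μ] (m d : ℕ)
    (τ : Fin m → ℝ → X → X) (hτ : ∀ j, IsFlow μ (τ j)) :
    (∃ D : Set ℝ, dimH D ≤ ENNReal.ofReal (1 - 1 / (d * 2 ^ (4 * d + 6) : ℝ)) ∧ ∀ a : ℝ, 0 < a → a ∉ D →
      ∀ P : Polynomial ℤ, 0 < P.natDegree → P.natDegree ≤ d → 0 < P.leadingCoeff →
        ∀ f : Fin m → X → ℂ, (∀ j, EssBdd μ (f j)) →
        Tendsto (fun N : ℕ => ∫ x, ‖davg τ (toReal P) f a N x - cavg τ (toReal P) f a N x‖ ^ 2 ∂μ)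
          atTop (nhds 0) ∧
        ((∀ j, OneFunction μ (τ j) (toReal P) a) → ∀ᵐ x ∂μ, ∀ L : ℂ,
          Tendsto (fun N : ℕ => davg τ (toReal P) f a N x) atTop (nhds L) ↔
            Tendsto (fun V : ℝ => lavg τ f V x) atTop (nhds L))) ∧
    (∀ P : Polynomial ℝ, 0 < P.natDegree → P.natDegree ≤ d → 0 < P.leadingCoeff →
      ∃ D : Set ℝ, dimH D ≤ ENNReal.ofReal (1 - 1 / (d * 2 ^ (4 * d + 6) : ℝ)) ∧ ∀ a : ℝ, 0 < a → a ∉ D →
        ∀ f : Fin m → X → ℂ, (∀ j, EssBdd μ (f j)) →
        Tendsto (fun N : ℕ => ∫ x, ‖davg τ P f a N x - cavg τ P f a N x‖ ^ 2 ∂μ) atTop (nhds 0) ∧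
        ((∀ j, OneFunction μ (τ j) P a) → ∀ᵐ x ∂μ, ∀ L : ℂ,
          Tendsto (fun N : ℕ => davg τ P f a N x) atTop (nhds L) ↔
            Tendsto (fun V : ℝ => lavg τ f V x) atTop (nhds L))) := by
  have hτ' : ∀ j, Pool.Agent.Y957.MC.IsFlow μ (τ j) := fun j => ⟨(hτ j).meas, (hτ j).zero, (hτ j).add, (hτ j).mp⟩
  have h2 : ∀ P : Polynomial ℝ, 0 < P.natDegree → P.natDegree ≤ d → 0 < P.leadingCoeff →
      ∃ D : Set ℝ, dimH D ≤ ENNReal.ofReal (1 - 1 / (d * 2 ^ (4 * d + 6) : ℝ)) ∧ ∀ a : ℝ, 0 < a → a ∉ D →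
        ∀ f : Fin m → X → ℂ, (∀ j, EssBdd μ (f j)) →
        Tendsto (fun N : ℕ => ∫ x, ‖davg τ P f a N x - cavg τ P f a N x‖ ^ 2 ∂μ) atTop (nhds 0) ∧
        ((∀ j, OneFunction μ (τ j) P a) → ∀ᵐ x ∂μ, ∀ L : ℂ,
          Tendsto (fun N : ℕ => davg τ P f a N x) atTop (nhds L) ↔
            Tendsto (fun V : ℝ => lavg τ f V x) atTop (nhds L)) := by
    intro P hP hPd hl
    obtain ⟨D, hD, h⟩ := Pool.Agent.U527.Et.main hτ' P hP hl
    refine ⟨D, (hD.trans (Pool.Agent.U527.Et.dm_mono hPd hP)).trans (le_of_eq (dm_eq d)), fun a ha0 ha f hf => ?_⟩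
    obtain ⟨g1, g2⟩ := h a ha0 ha f (fun j => (hf j).1) (fun j => (hf j).2)
    refine ⟨?_, fun hS => g2 fun j => sg_of (hS j)⟩
    refine g1.congr fun N => ?_
    refine integral_congr_ae (ae_of_all _ fun x => ?_)
    simp only
    rw [Pool.Agent.U527.Et.dd_eq]
    rfl
  refine ⟨?_, h2⟩
  have hdeg : ∀ Q : Polynomial ℤ, (toReal Q).natDegree = Q.natDegree := fun Q =>
    Polynomial.natDegree_map_eq_of_injective Int.cast_injective Q
  have hlead : ∀ Q : Polynomial ℤ, (toReal Q).leadingCoeff = Q.leadingCoeff := fun Q => by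
    unfold toReal
    rw [Polynomial.leadingCoeff_map_of_injective Int.cast_injective]
    rfl
  have hex : ∀ P : {P : Polynomial ℤ // 0 < P.natDegree ∧ P.natDegree ≤ d ∧ 0 < P.leadingCoeff},
      ∃ D : Set ℝ, dimH D ≤ ENNReal.ofReal (1 - 1 / (d * 2 ^ (4 * d + 6) : ℝ)) ∧ ∀ a : ℝ, 0 < a → a ∉ D →
        ∀ f : Fin m → X → ℂ, (∀ j, EssBdd μ (f j)) →
        Tendsto (fun N : ℕ => ∫ x, ‖davg τ (toReal P.1) f a N x - cavg τ (toReal P.1) f a N x‖ ^ 2 ∂μ)
          atTop (nhds 0) ∧
        ((∀ j, OneFunction μ (τ j) (toReal P.1) a) → ∀ᵐ x ∂μ, ∀ L : ℂ,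
          Tendsto (fun N : ℕ => davg τ (toReal P.1) f a N x) atTop (nhds L) ↔
            Tendsto (fun V : ℝ => lavg τ f V x) atTop (nhds L)) := by
    rintro ⟨P, hP, hPd, hl⟩
    exact h2 (toReal P) (by rw [hdeg]; exact hP) (by rw [hdeg]; exact hPd) (by rw [hlead]; exact_mod_cast hl)
  choose D hD hDa using hex
  have := countable_intPoly
  refine ⟨⋃ P, D P, ?_, fun a ha0 ha P hP hPd hl => ?_⟩
  · rw [dimH_iUnion]
    exact iSup_le hD
  · rw [Set.mem_iUnion, not_exists] at ha
    exact hDa ⟨P, hP, hPd, hl⟩ a ha0 (ha _)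

end Pool.Agent.Results.MP_4d8f14_an.ExceptionalPolynomialTimes
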