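import Pool.Agent.U587.DX.Two

set_option autoImplicit false

/-!
# Polynomials of distinct degrees: all times outside a set of Hausdorff dimension less than one

Let `τ_1, ..., τ_m` be measurable measure preserving flows on a separable probability space `(X, μ)`, with NO relation
between them, and `d ≥ 1`. There is ONE set `D` of real numbers, of Hausdorff dimension at most `1 - 1 / (8 d)`, such
that for ALL real `a` outside of `D`, all integer polynomials `P_1, ..., P_m` of distinct degrees in `[1, d]` and all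
`f_1, ..., f_m` in `L^∞` the averages over `|n| ≤ N` of `∏ f_j(T_j^(P_j(n)) x)`, `T_j = τ_j(a)`, converge to the
product of the conditional expectations of the `f_j` on the invariant sets of the flows: in `L²(μ)`, and for almost
every `x` if `T_1, ..., T_m` satisfy the pointwise ergodic theorem for one function along polynomials (this is a theorem
of Bourgain, for every `a`). Second part: real polynomials and arbitrary bounded weights `W_n(x)`.

For maps `T_j` without relations the averages can diverge, even in `L²` (Austin), so that exceptional times cannot be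
avoided. The starting result `DistinctDegrees` has almost every `a` in place of all `a` outside of `D`, and the null set
there depends on the functions.

Proof. By the starting library the mean square over `a ∈ [1, 2]` and `x` of the averages of length `N = K^16`, with the
factor of highest degree a smooth coboundary and the other ones Lipschitz along their flows, is `O(K^(-2))`. These
averages are Lipschitz in `a` with constant `O(N^d)`, so that for `K = l^q` their mean square over `x` is at most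
`l^(-2)` for all `a` outside of `O(l^4 K^(16 d - 2))` intervals of length `l^(-2) K^(-16 d)`, and a covering argument
with `q → ∞` gives the dimension. A countable family of such functions is dense in `L¹`; at a fixed time the error of
the approximation is controlled in the mean by invariance of the measure, and almost everywhere by the ergodic theorem
for one function, which gives the integral of the limit.
-/

namespace Pool.Agent.Results.MP_4d8f14_an.ExceptionalTimes

open MeasureTheory Filter Finset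

universe u

/-- a measurable measure preserving flow -/
structure IsFlow {X : Type u} [MeasurableSpace X] (μ : Measure X) (τ : ℝ → X → X) : Prop where
  meas : Measurable (fun p : ℝ × X => τ p.1 p.2)
  zero : ∀ x, τ 0 x = x
  add : ∀ s t x, τ (s + t) x = τ s (τ t x)
  mp : ∀ t, MeasurePreserving (τ t) μ μ

/-- `f` is in `L^∞` -/
def EssBdd {X : Type u} [MeasurableSpace X] (μ : Measure X) (f : X → ℂ) : Prop :=
  AEStronglyMeasurable f μ ∧ ∃ C : ℝ, ∀ᵐ x ∂μ, ‖f x‖ ≤ C

/-- uniformly bounded measurable weights -/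
def Weights {X : Type u} [MeasurableSpace X] (μ : Measure X) (W : ℤ → X → ℂ) : Prop :=
  (∀ n, AEStronglyMeasurable (W n) μ) ∧ ∃ C : ℝ, ∀ n, ∀ᵐ x ∂μ, ‖W n x‖ ≤ C

/-- the conditional expectation on the sets invariant under the flow -/
noncomputable def inv {X : Type u} [MeasurableSpace X] (μ : Measure X) (τ : ℝ → X → X) (f : X → ℂ) : X → ℂ :=
  μ[f | ⨅ t : ℝ, MeasurableSpace.invariants (τ t)]

/-- The pointwise ergodic theorem for one function at the times `a P(n)`: for all `h` in `L^∞` the averages over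
`1 ≤ n ≤ N` of `h(τ(a P(n)) x)` converge for almost every `x`. -/
def OneFunction {X : Type u} [MeasurableSpace X] (μ : Measure X) (τ : ℝ → X → X) (P : Polynomial ℝ) (a : ℝ) : Prop :=
  ∀ h : X → ℂ, EssBdd μ h → ∀ᵐ x ∂μ, ∃ L : ℂ,
    Tendsto (fun N : ℕ => (1 / (N : ℂ)) * ∑ n ∈ Icc 1 N, h (τ (a * P.eval (n : ℝ)) x)) atTop (nhds L)

/-- the averages over `|n| ≤ N` of `∏ f_j(τ_j(a P_j(n)) x)` -/
noncomputable def avg {X : Type u} {m : ℕ} (τ : Fin m → ℝ → X → X) (P : Fin m → Polynomial ℝ) (f : Fin m → X → ℂ)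
    (a : ℝ) (N : ℕ) (x : X) : ℂ :=
  (1 / (2 * (N : ℂ) + 1)) * ∑ n ∈ Icc (-(N : ℤ)) N, ∏ j, f j (τ j (a * (P j).eval (n : ℝ)) x)

/-- the averages of `W_n(x) (∏ f_j(τ_j(a P_j(n)) x) - ∏ E(f_j|τ_j)(x))` -/
noncomputable def wavg {X : Type u} [MeasurableSpace X] (μ : Measure X) {m : ℕ} (τ : Fin m → ℝ → X → X)
    (P : Fin m → Polynomial ℝ) (W : ℤ → X → ℂ) (f : Fin m → X → ℂ) (a : ℝ) (N : ℕ) (x : X) : ℂ :=
  (1 / (2 * (N : ℂ) + 1)) * ∑ n ∈ Icc (-(N : ℤ)) N,
    W n x * (∏ j, f j (τ j (a * (P j).eval (n : ℝ)) x) - ∏ j, inv μ (τ j) (f j) x)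

/-- an integer polynomial as a real polynomial -/
noncomputable def toReal (P : Polynomial ℤ) : Polynomial ℝ := P.map (Int.castRingHom ℝ)

lemma dm_eq (d : ℕ) : Pool.Agent.U587.DX.dm d = ENNReal.ofReal (1 - 1 / (8 * (d : ℝ))) := by
  unfold Pool.Agent.U587.DX.dm
  congr 2
  push_cast
  rcases eq_or_ne (d : ℝ) 0 with h | h
  · rw [h]; norm_num
  · field_simp
    norm_num

lemma sg_of {X : Type u} [MeasurableSpace X] {μ : Measure X} {τ : ℝ → X → X} {P : Polynomial ℝ} {a : ℝ}
    (h : OneFunction μ τ P a) : Pool.Agent.U587.DX.Sg μ τ P a := by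
  intro g hg hgb
  obtain ⟨C, hC⟩ := hgb
  filter_upwards [h (fun x => (g x : ℂ)) ⟨(Complex.measurable_ofReal.comp hg).aestronglyMeasurable, C,
    ae_of_all _ fun x => by rw [Complex.norm_real]; exact hC x⟩] with x hx
  obtain ⟨L, hL⟩ := hx
  refine ⟨L.re, ((Complex.continuous_re.tendsto L).comp hL).congr fun N => ?_⟩
  simp only [Function.comp]
  rw [show (1 / (N : ℂ)) * ∑ n ∈ Icc 1 N, ((g (τ (a * P.eval (n : ℝ)) x) : ℝ) : ℂ) =
    (((1 / (N : ℝ)) * ∑ n ∈ Icc 1 N, g (τ (a * P.eval (n : ℝ)) x) : ℝ) : ℂ) by push_cast; rfl, Complex.ofReal_re]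

lemma wavg_eq {X : Type u} [MeasurableSpace X] {μ : Measure X} {m : ℕ} (τ : Fin m → ℝ → X → X)
    (P : Fin m → Polynomial ℝ) (W : ℤ → X → ℂ) (f : Fin m → X → ℂ) (a : ℝ) (N : ℕ) (x : X) :
    wavg μ τ P W f a N x = (1 / (2 * (N : ℂ) + 1)) * ∑ n ∈ Icc (-(N : ℤ)) N,
      Pool.Agent.U587.DX.term μ τ P W f a n x := rfl

lemma wavg_one {X : Type u} [MeasurableSpace X] {μ : Measure X} {m : ℕ} (τ : Fin m → ℝ → X → X)
    (P : Fin m → Polynomial ℝ) (f : Fin m → X → ℂ) (a : ℝ) (N : ℕ) (x : X) :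
    wavg μ τ P (fun _ _ => 1) f a N x = avg τ P f a N x - ∏ j, inv μ (τ j) (f j) x := by
  unfold wavg avg
  simp only [one_mul]
  rw [sum_sub_distrib, mul_sub, sum_const]
  congr 1
  have hcard : (((Icc (-(N : ℤ)) N).card : ℕ) : ℂ) = 2 * (N : ℂ) + 1 := by
    rw [Int.card_Icc]
    have : ((N : ℤ) + 1 - -(N : ℤ)).toNat = 2 * N + 1 := by omega
    rw [this]
    push_cast
    ring
  rw [nsmul_eq_mul, hcard, ← mul_assoc, one_div_mul_cancel (Pool.Agent.R497.TD.two_ne N), one_mul]

lemma countable_intPoly : Countable (Polynomial ℤ) := by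
  have h : Function.Injective (fun p : Polynomial ℤ => (List.ofFn fun i : Fin (p.natDegree + 1) => p.coeff i)) := by
    intro p q hpq
    simp only at hpq
    have h1 := congrArg List.length hpq
    simp only [List.length_ofFn] at h1
    ext n
    by_cases hn : n < p.natDegree + 1
    · have h2 : (List.ofFn fun i : Fin (p.natDegree + 1) => p.coeff i)[n]? =
        (List.ofFn fun i : Fin (q.natDegree + 1) => q.coeff i)[n]? := by rw [hpq]
      have hn' : n < q.natDegree + 1 := by omega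
      rw [List.getElem?_eq_getElem (by simpa using hn), List.getElem?_eq_getElem (by simpa using hn')] at h2
      simpa only [Option.some.injEq, List.getElem_ofFn] using h2
    · rw [Polynomial.coeff_eq_zero_of_natDegree_lt (by omega), Polynomial.coeff_eq_zero_of_natDegree_lt (by omega)]
  exact h.countable

/-- **One exceptional set of dimension at most `1 - 1 / (8 d)` for polynomials of distinct degrees.** -/
theorem result (X : Type u) [MeasurableSpace X] (μ : Measure X) [IsProbabilityMeasure μ] [IsSeparable μ] (m d : ℕ)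
    (τ : Fin m → ℝ → X → X) (hτ : ∀ j, IsFlow μ (τ j)) :
    (∃ D : Set ℝ, dimH D ≤ ENNReal.ofReal (1 - 1 / (8 * (d : ℝ))) ∧ ∀ a : ℝ, a ∉ D →
      ∀ P : Fin m → Polynomial ℤ, (∀ j, 0 < (P j).natDegree ∧ (P j).natDegree ≤ d) →
        (Function.Injective fun j => (P j).natDegree) → ∀ f : Fin m → X → ℂ, (∀ j, EssBdd μ (f j)) →
        Tendsto (fun N : ℕ => ∫ x, ‖avg τ (fun j => toReal (P j)) f a N x - ∏ j, inv μ (τ j) (f j) x‖ ^ 2 ∂μ)
          atTop (nhds 0) ∧
        ((∀ j, ∀ Q : Polynomial ℤ, OneFunction μ (τ j) (toReal Q) a) → ∀ᵐ x ∂μ,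
          Tendsto (fun N : ℕ => avg τ (fun j => toReal (P j)) f a N x) atTop (nhds (∏ j, inv μ (τ j) (f j) x)))) ∧
    (∀ P : Fin m → Polynomial ℝ, (∀ j, 0 < (P j).natDegree ∧ (P j).natDegree ≤ d) →
      (Function.Injective fun j => (P j).natDegree) → ∀ W : ℤ → X → ℂ, Weights μ W →
      ∃ D : Set ℝ, dimH D ≤ ENNReal.ofReal (1 - 1 / (8 * (d : ℝ))) ∧ ∀ a : ℝ, a ∉ D →
        ∀ f : Fin m → X → ℂ, (∀ j, EssBdd μ (f j)) →
        Tendsto (fun N : ℕ => ∫ x, ‖wavg μ τ P W f a N x‖ ^ 2 ∂μ) atTop (nhds 0) ∧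
        ((∀ j, OneFunction μ (τ j) (P j) a ∧ OneFunction μ (τ j) ((P j).comp (-Polynomial.X)) a) → ∀ᵐ x ∂μ,
          Tendsto (fun N : ℕ => wavg μ τ P W f a N x) atTop (nhds 0))) := by
  have hτ' : ∀ j, Pool.Agent.Y957.MC.IsFlow μ (τ j) := fun j => ⟨(hτ j).meas, (hτ j).zero, (hτ j).add, (hτ j).mp⟩
  have h2 : ∀ P : Fin m → Polynomial ℝ, (∀ j, 0 < (P j).natDegree ∧ (P j).natDegree ≤ d) →
      (Function.Injective fun j => (P j).natDegree) → ∀ W : ℤ → X → ℂ, Weights μ W →
      ∃ D : Set ℝ, dimH D ≤ ENNReal.ofReal (1 - 1 / (8 * (d : ℝ))) ∧ ∀ a : ℝ, a ∉ D →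
        ∀ f : Fin m → X → ℂ, (∀ j, EssBdd μ (f j)) →
        Tendsto (fun N : ℕ => ∫ x, ‖wavg μ τ P W f a N x‖ ^ 2 ∂μ) atTop (nhds 0) ∧
        ((∀ j, OneFunction μ (τ j) (P j) a ∧ OneFunction μ (τ j) ((P j).comp (-Polynomial.X)) a) → ∀ᵐ x ∂μ,
          Tendsto (fun N : ℕ => wavg μ τ P W f a N x) atTop (nhds 0)) := by
    intro P hP hinj W hW
    obtain ⟨D, hD, h⟩ := Pool.Agent.U587.DX.two_gen hτ' (fun j => (hP j).1) (fun j => (hP j).2) hinj hW.1 hW.2
    rw [dm_eq] at hD
    refine ⟨D, hD, fun a ha f hf => ?_⟩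
    obtain ⟨g1, g2⟩ := h a ha f (fun j => (hf j).1) (fun j => (hf j).2)
    exact ⟨g1, fun hS => g2 (fun j => sg_of (hS j).1) fun j => sg_of (hS j).2⟩
  refine ⟨?_, h2⟩
  have hdeg : ∀ Q : Polynomial ℤ, (toReal Q).natDegree = Q.natDegree := fun Q =>
    Polynomial.natDegree_map_eq_of_injective Int.cast_injective Q
  have hcomp : ∀ Q : Polynomial ℤ, (toReal Q).comp (-Polynomial.X) = toReal (Q.comp (-Polynomial.X)) := fun Q => by
    unfold toReal
    rw [Polynomial.map_comp]
    simp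
  have hone : Weights μ (fun (_ : ℤ) (_ : X) => (1 : ℂ)) :=
    ⟨fun _ => aestronglyMeasurable_const, 1, fun _ => ae_of_all _ fun _ => by simp⟩
  have hex : ∀ P : {P : Fin m → Polynomial ℤ // (∀ j, 0 < (P j).natDegree ∧ (P j).natDegree ≤ d) ∧
      Function.Injective fun j => (P j).natDegree}, ∃ D : Set ℝ, dimH D ≤ ENNReal.ofReal (1 - 1 / (8 * (d : ℝ))) ∧
      ∀ a : ℝ, a ∉ D → ∀ f : Fin m → X → ℂ, (∀ j, EssBdd μ (f j)) →
        Tendsto (fun N : ℕ => ∫ x, ‖avg τ (fun j => toReal (P.1 j)) f a N x - ∏ j, inv μ (τ j) (f j) x‖ ^ 2 ∂μ)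
          atTop (nhds 0) ∧
        ((∀ j, ∀ Q : Polynomial ℤ, OneFunction μ (τ j) (toReal Q) a) → ∀ᵐ x ∂μ,
          Tendsto (fun N : ℕ => avg τ (fun j => toReal (P.1 j)) f a N x) atTop
            (nhds (∏ j, inv μ (τ j) (f j) x))) := by
    rintro ⟨P, hP, hinj⟩
    obtain ⟨D, hD, h⟩ := h2 (fun j => toReal (P j)) (fun j => by rw [hdeg]; exact hP j)
      (fun i j hij => hinj (by simpa only [hdeg] using hij)) (fun _ _ => 1) hone
    refine ⟨D, hD, fun a ha f hf => ?_⟩
    obtain ⟨g1, g2⟩ := h a ha f hf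
    simp only [wavg_one] at g1 g2
    refine ⟨g1, fun hS => ?_⟩
    filter_upwards [g2 fun j => ⟨hS j _, by rw [hcomp]; exact hS j _⟩] with x hx
    have h5 := hx.add_const (∏ j, inv μ (τ j) (f j) x)
    rw [zero_add] at h5
    exact h5.congr fun N => by ring
  choose D hD hDa using hex
  have := countable_intPoly
  refine ⟨⋃ P, D P, ?_, fun a ha P hP hinj => ?_⟩
  · rw [dimH_iUnion]
    exact iSup_le hD
  · rw [Set.mem_iUnion, not_exists] at ha
    exact hDa ⟨P, hP, hinj⟩ a (ha _)

end Pool.Agent.Results.MP_4d8f14_an.ExceptionalTimes
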