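import Pool.Agent.U547.KB.TwoSeq

/-!
# Polynomial averages for Kolmogorov extensions and Kolmogorov actions

A group `G` (not necessarily commutative or nilpotent) acts by measure preserving bijections `Φ g` of an
arbitrary probability space `(X, μ)`, and `ℓ : G → ℝ` is a homomorphism. The action is a Kolmogorov
(`K`-) extension of its factor `𝒴` (an arbitrary invariant sub-`σ`-algebra) if there is a `σ`-algebra
`𝒜 ⊇ 𝒴` which decreases under the maps `Φ g` with `ℓ g ≤ 0`, the images of which generate everything, and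
the intersection of whose images is `𝒴` modulo null sets; it is a `K`-action if `𝒴` is trivial. By the theorem of
Rokhlin and Sinai every invertible map of a Lebesgue space is a `K`-extension of its Pinsker factor
(`G = ℤ`, `ℓ` the identity).

Let `g_1, …, g_m : ℤ → G` be sequences whose positions `ℓ (g_j n)` are real polynomials `L_j(n)` such that all
`L_j` and all differences `L_i - L_j`, `i ≠ j`, are nonconstant. For the maps
`g_j(n) = t_1^{P_1j(n)} ⋯ t_d^{P_dj(n)}` of the problem the positions are the polynomials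
`L_j = ℓ(t_1) P_1j + ⋯ + ℓ(t_d) P_dj`.

Let the averages over `|n| ≤ N` of single bounded functions along each `g_j` converge almost everywhere
(a theorem for polynomials and commuting `t_i`, or `t_i` which generate a group of nilpotency class two; the statement
`m = 1` of the problem in general), or let `g_j(n) = c b^n`.

* The factor `𝒴` is characteristic for the averages of `∏_j f_j (g_j(n) x)`, almost everywhere: they are asymptotic
  to the averages of `∏_j E(f_j | 𝒴) (g_j(n) x)`. So convergence almost everywhere for `X` follows from that for the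
  factor; nothing is assumed about the factor.
* For `K`-actions the averages converge to `∏_j ∫ f_j`.
-/

set_option autoImplicit false

open Filter Topology MeasureTheory
open scoped ENNReal

namespace Pool.Agent.Results.MP_4d8f14_an.KolmogorovPolynomials

/-- The average of `F` over `|n| ≤ N`. -/
noncomputable def avg (N : ℕ) (F : ℤ → ℂ) : ℂ :=
  ((2 * N + 1 : ℕ) : ℂ)⁻¹ * ∑ n ∈ Finset.Icc (-(N : ℤ)) (N : ℤ), F n

/-- `t_1^{P_1(n)} ⋯ t_d^{P_d(n)}` -/
noncomputable def polySeq {G : Type} [Group G] {d : ℕ} (t : Fin d → G) (P : Fin d → Polynomial ℤ)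
    (n : ℤ) : G :=
  (List.ofFn fun i => t i ^ (P i).eval n).prod

/-- `ℓ(t_1) P_1 + ⋯ + ℓ(t_d) P_d` -/
noncomputable def position {G : Type} {d : ℕ} (ℓ : G → ℝ) (t : Fin d → G)
    (P : Fin d → Polynomial ℤ) : Polynomial ℝ :=
  ∑ i, Polynomial.C (ℓ (t i)) * (P i).map (Int.castRingHom ℝ)

/-- The polynomials `L_j` and their differences `L_i - L_j`, `i ≠ j`, are not constant. -/
def Spread {m : ℕ} (L : Fin m → Polynomial ℝ) : Prop :=
  (∀ j, 0 < (L j).degree) ∧ ∀ i j, i ≠ j → 0 < (L i - L j).degree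

/-- `ℓ` is a homomorphism to the reals, the maps `Φ g` preserve `μ`, the `σ`-algebra `𝒜` decreases under the maps
`Φ g` with `ℓ g ≤ 0`, and the `σ`-algebras `(Φ g)⁻¹ 𝒜` generate all measurable sets modulo `μ`. -/
structure IsFiltered {X G : Type} [Group G] (𝒜 : MeasurableSpace X) {mX : MeasurableSpace X}
    (μ : Measure X) (Φ : G →* Equiv.Perm X) (ℓ : G → ℝ) : Prop where
  measurePreserving : ∀ g, MeasurePreserving (Φ g) μ μ
  hom : ∀ g h, ℓ (g * h) = ℓ g + ℓ h
  le : 𝒜 ≤ mX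
  mono : ∀ g, ℓ g ≤ 0 → 𝒜.comap (Φ g : X → X) ≤ 𝒜
  generates : ∀ B, MeasurableSet[mX] B →
    ∃ B', MeasurableSet[⨆ g, 𝒜.comap (Φ g : X → X)] B' ∧ B =ᵐ[μ] B'

/-- The action is a Kolmogorov extension of its factor `𝒴`. -/
structure IsKolmogorovExtension {X G : Type} [Group G] (𝒴 : MeasurableSpace X)
    {mX : MeasurableSpace X} (μ : Measure X) (Φ : G →* Equiv.Perm X) (ℓ : G → ℝ) : Prop where
  invariant : ∀ g, Measurable[𝒴, 𝒴] (Φ g : X → X)
  exists_filtration : ∃ 𝒜 : MeasurableSpace X, 𝒴 ≤ 𝒜 ∧ IsFiltered 𝒜 μ Φ ℓ ∧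
    ∀ B, (∀ g, MeasurableSet[𝒜.comap (Φ g : X → X)] B) →
      ∃ B', MeasurableSet[𝒴] B' ∧ B =ᵐ[μ] B'

/-- The action is a Kolmogorov action: the intersection of the `σ`-algebras `(Φ g)⁻¹ 𝒜` is trivial. -/
def IsKolmogorovAction {X G : Type} [Group G] {mX : MeasurableSpace X} (μ : Measure X)
    (Φ : G →* Equiv.Perm X) (ℓ : G → ℝ) : Prop :=
  ∃ 𝒜 : MeasurableSpace X, IsFiltered 𝒜 μ Φ ℓ ∧
    ∀ B, (∀ g, MeasurableSet[𝒜.comap (Φ g : X → X)] B) → μ B = 0 ∨ μ B = 1

/-- `g(n) = c b^n`, or the averages over `|n| ≤ N` of every bounded measurable function along the maps `g(n)`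
converge almost everywhere. -/
def SingleAverages {X G : Type} [Group G] {mX : MeasurableSpace X} (μ : Measure X)
    (Φ : G →* Equiv.Perm X) (g : ℤ → G) : Prop :=
  (∃ c b : G, ∀ n, g n = c * b ^ n) ∨
    ∀ H : X → ℝ, Measurable H → (∃ C : ℝ, ∀ x, |H x| ≤ C) →
      ∀ᵐ x ∂μ, ∃ L : ℝ, Tendsto (fun N : ℕ => ((2 * N + 1 : ℕ) : ℝ)⁻¹ *
        ∑ n ∈ Finset.Icc (-(N : ℤ)) (N : ℤ), H (Φ (g n) x)) atTop (𝓝 L)

open Pool.Agent.W761.Gauss (BM_of_memLp)
open Pool.Agent.W761.Box (BM)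
open Pool.Agent.TH784.KE (KExt exists_cond)
open Pool.Agent.U547.KB

theorem kext {X G : Type} [Group G] {𝒜 𝒴 mX : MeasurableSpace X} {μ : Measure X}
    {Φ : G →* Equiv.Perm X} {ℓ : G → ℝ}
    (h : IsFiltered 𝒜 μ Φ ℓ) (hinv : ∀ g, Measurable[𝒴, 𝒴] (Φ g : X → X)) (hY : 𝒴 ≤ 𝒜)
    (ht : ∀ B, (∀ g, MeasurableSet[𝒜.comap (Φ g : X → X)] B) →
      ∃ B', MeasurableSet[𝒴] B' ∧ B =ᵐ[μ] B') : KExt μ 𝒜 𝒴 Φ ℓ :=
  ⟨h.measurePreserving, ⟨h.hom, h.le, h.mono⟩, ⟨hY, hinv⟩, h.generates, ht⟩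

theorem maj {X G : Type} [Group G] {mX : MeasurableSpace X} {μ : Measure X}
    [IsProbabilityMeasure μ] {Φ : G →* Equiv.Perm X} (hΦ : ∀ g, MeasurePreserving (Φ g) μ μ)
    {q : ℤ → G} (h : SingleAverages μ Φ q) :
    Maj μ (fun m : Fin 1 → ℕ => (Φ (q (m 0 : ℤ)) : X → X)) ∧
      Maj μ (fun m : Fin 1 → ℕ => (Φ (q (-(m 0 : ℤ))) : X → X)) := by
  rcases h with ⟨c, b, h⟩ | h
  · exact maj_pow hΦ c b h
  · exact maj_single hΦ h

theorem eval_position {G : Type} [Group G] {d : ℕ} {ℓ : G → ℝ} (hom : ∀ g h, ℓ (g * h) = ℓ g + ℓ h)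
    (t : Fin d → G) (P : Fin d → Polynomial ℤ) (n : ℤ) :
    ℓ (polySeq t P n) = (position ℓ t P).eval (n : ℝ) := by
  have h1 : ℓ 1 = 0 := by
    have := hom 1 1
    rw [mul_one] at this
    linarith
  have hinv : ∀ g : G, ℓ g⁻¹ = -ℓ g := by
    intro g
    have := hom g g⁻¹
    rw [mul_inv_cancel, h1] at this
    linarith
  have hpow : ∀ (g : G) (t : ℕ), ℓ (g ^ t) = t * ℓ g := by
    intro g t
    induction t with
    | zero => simp [h1]
    | succ t ih =>
      rw [pow_succ, hom, ih]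
      push_cast
      ring
  have hzpow : ∀ (g : G) (t : ℤ), ℓ (g ^ t) = t * ℓ g := by
    intro g t
    obtain ⟨k, rfl | rfl⟩ := t.eq_nat_or_neg
    · rw [zpow_natCast, hpow]
      simp
    · rw [zpow_neg, zpow_natCast, hinv, hpow]
      push_cast
      ring
  have hlist : ∀ L : List G, ℓ L.prod = (L.map ℓ).sum := by
    intro L
    induction L with
    | nil => simp [h1]
    | cons a L ih => rw [List.prod_cons, hom, ih, List.map_cons, List.sum_cons]
  rw [polySeq, hlist, List.map_ofFn, List.sum_ofFn, position, Polynomial.eval_finsetSum]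
  refine Finset.sum_congr rfl fun i _ => ?_
  rw [Function.comp_apply, hzpow, Polynomial.eval_mul, Polynomial.eval_C,
    Polynomial.eval_intCast_map, eq_intCast, mul_comm, Int.cast_id]

/-- Let `(X, μ)` be a probability space, `G` a group acting on it, `ℓ : G → ℝ`, and `f_1, …, f_m ∈ L^∞`.
1. Let `X` be a Kolmogorov extension of its factor `𝒴` and let `g_1, …, g_m : ℤ → G` have positions
`ℓ (g_j n) = L_j(n)` with real polynomials `L_j` such that all `L_j` and all `L_i - L_j` are nonconstant. If the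
averages of single functions along each `g_j` converge, then for almost every `x` the averages over `|n| ≤ N` of
`∏_j f_j (g_j(n) x)` and of `∏_j E(f_j | 𝒴) (g_j(n) x)` have difference tending to zero; hence if the averages
converge almost everywhere for bounded `𝒴`-measurable functions, then they do so for all functions in `L^∞`.
2. For Kolmogorov actions the averages converge to `∏_j ∫ f_j`.
3., 4. In particular this holds for the maps `g_j(n) = t_1^{P_1j(n)} ⋯ t_d^{P_dj(n)}`, `P_ij ∈ ℤ[n]`, if all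
`L_j = ℓ(t_1) P_1j + ⋯ + ℓ(t_d) P_dj` and all `L_i - L_j` are nonconstant. -/
theorem result {X G : Type} [Group G] (𝒴 : MeasurableSpace X) [mX : MeasurableSpace X]
    (μ : Measure X) [IsProbabilityMeasure μ] (Φ : G →* Equiv.Perm X) (ℓ : G → ℝ) (d m : ℕ) :
    (IsKolmogorovExtension 𝒴 μ Φ ℓ →
      ∀ (g : Fin m → ℤ → G) (L : Fin m → Polynomial ℝ), (∀ j n, ℓ (g j n) = (L j).eval (n : ℝ)) →
        Spread L → (∀ j, SingleAverages μ Φ (g j)) →
        (∀ f : Fin m → X → ℂ, (∀ j, MemLp (f j) ∞ μ) → ∀ᵐ x ∂μ, Tendsto (fun N : ℕ =>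
          avg N (fun n => ∏ j, f j (Φ (g j n) x)) -
            avg N (fun n => ∏ j, (μ[f j | 𝒴]) (Φ (g j n) x))) atTop (𝓝 0)) ∧
        ((∀ e : Fin m → X → ℂ, (∀ j, Measurable[𝒴] (e j) ∧ ∃ C : ℝ, ∀ x, ‖e j x‖ ≤ C) →
          ∀ᵐ x ∂μ, ∃ A, Tendsto (fun N : ℕ => avg N fun n => ∏ j, e j (Φ (g j n) x))
            atTop (𝓝 A)) →
          ∀ f : Fin m → X → ℂ, (∀ j, MemLp (f j) ∞ μ) → ∀ᵐ x ∂μ, ∃ A, Tendsto
            (fun N : ℕ => avg N fun n => ∏ j, f j (Φ (g j n) x)) atTop (𝓝 A))) ∧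
    (IsKolmogorovAction μ Φ ℓ →
      ∀ (g : Fin m → ℤ → G) (L : Fin m → Polynomial ℝ), (∀ j n, ℓ (g j n) = (L j).eval (n : ℝ)) →
        Spread L → (∀ j, SingleAverages μ Φ (g j)) →
        ∀ f : Fin m → X → ℂ, (∀ j, MemLp (f j) ∞ μ) → ∀ᵐ x ∂μ, Tendsto (fun N : ℕ =>
          avg N fun n => ∏ j, f j (Φ (g j n) x)) atTop (𝓝 (∏ j, ∫ y, f j y ∂μ))) ∧
    (IsKolmogorovExtension 𝒴 μ Φ ℓ →
      ∀ (t : Fin d → G) (P : Fin m → Fin d → Polynomial ℤ),
        Spread (fun j => position ℓ t (P j)) → (∀ j, SingleAverages μ Φ (polySeq t (P j))) →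
        (∀ f : Fin m → X → ℂ, (∀ j, MemLp (f j) ∞ μ) → ∀ᵐ x ∂μ, Tendsto (fun N : ℕ =>
          avg N (fun n => ∏ j, f j (Φ (polySeq t (P j) n) x)) -
            avg N (fun n => ∏ j, (μ[f j | 𝒴]) (Φ (polySeq t (P j) n) x))) atTop (𝓝 0)) ∧
        ((∀ e : Fin m → X → ℂ, (∀ j, Measurable[𝒴] (e j) ∧ ∃ C : ℝ, ∀ x, ‖e j x‖ ≤ C) →
          ∀ᵐ x ∂μ, ∃ A, Tendsto (fun N : ℕ => avg N fun n =>
            ∏ j, e j (Φ (polySeq t (P j) n) x)) atTop (𝓝 A)) →
          ∀ f : Fin m → X → ℂ, (∀ j, MemLp (f j) ∞ μ) → ∀ᵐ x ∂μ, ∃ A, Tendsto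
            (fun N : ℕ => avg N fun n => ∏ j, f j (Φ (polySeq t (P j) n) x)) atTop (𝓝 A))) ∧
    (IsKolmogorovAction μ Φ ℓ →
      ∀ (t : Fin d → G) (P : Fin m → Fin d → Polynomial ℤ),
        Spread (fun j => position ℓ t (P j)) → (∀ j, SingleAverages μ Φ (polySeq t (P j))) →
        ∀ f : Fin m → X → ℂ, (∀ j, MemLp (f j) ∞ μ) → ∀ᵐ x ∂μ, Tendsto (fun N : ℕ =>
          avg N fun n => ∏ j, f j (Φ (polySeq t (P j) n) x)) atTop
            (𝓝 (∏ j, ∫ y, f j y ∂μ))) := by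
  -- bounded representatives
  have hBM : ∀ f : Fin m → X → ℂ, (∀ j, MemLp (f j) ∞ μ) → ∃ g : Fin m → X → ℂ,
      (∀ j, BM (g j)) ∧ ∀ j, f j =ᵐ[μ] g j := by
    intro f hf
    choose g hg hfg using fun j => BM_of_memLp (hf j)
    exact ⟨g, hg, hfg⟩
  have hrep : ∀ (hmp : ∀ g, MeasurePreserving (Φ g) μ μ) (q : Fin m → ℤ → G)
      (f g : Fin m → X → ℂ), (∀ j, f j =ᵐ[μ] g j) →
      ∀ᵐ x ∂μ, ∀ (n : ℤ) (j : Fin m), f j (Φ (q j n) x) = g j (Φ (q j n) x) := by
    intro hmp q f g hfg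
    rw [ae_all_iff]
    intro n
    rw [ae_all_iff]
    intro j
    exact (hmp _).quasiMeasurePreserving.ae (hfg j)
  -- extensions
  have hext : IsKolmogorovExtension 𝒴 μ Φ ℓ →
      ∀ (g : Fin m → ℤ → G) (L : Fin m → Polynomial ℝ), (∀ j n, ℓ (g j n) = (L j).eval (n : ℝ)) →
        Spread L → (∀ j, SingleAverages μ Φ (g j)) →
        (∀ f : Fin m → X → ℂ, (∀ j, MemLp (f j) ∞ μ) → ∀ᵐ x ∂μ, Tendsto (fun N : ℕ =>
          avg N (fun n => ∏ j, f j (Φ (g j n) x)) -
            avg N (fun n => ∏ j, (μ[f j | 𝒴]) (Φ (g j n) x))) atTop (𝓝 0)) := by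
    intro h𝒴 q L hq hL hsing f hf
    choose g hg hfg using fun j => BM_of_memLp (hf j)
    obtain ⟨hinv, 𝒜, hY𝒜, hfil, htail⟩ := h𝒴
    have hK : KExt μ 𝒜 𝒴 Φ ℓ := kext hfil hinv hY𝒜 htail
    choose e he heY hee hfe using fun j => exists_cond (μ := μ) (hY𝒜.trans hfil.le) (hg j)
    have hmain := seq_two hK hq hL.1 hL.2 (fun j => maj hfil.measurePreserving (hsing j))
      hg he heY hfe
    have h1 := hrep hfil.measurePreserving q f g hfg
    have h2 := hrep hfil.measurePreserving q (fun j => μ[f j | 𝒴]) e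
      (fun j => (condExp_congr_ae (hfg j)).trans (hee j).symm)
    filter_upwards [hmain, h1, h2] with x hx hx1 hx2
    refine hx.congr fun N => ?_
    unfold avg
    rw [← mul_sub, ← Finset.sum_sub_distrib]
    congr 1
    refine Finset.sum_congr rfl fun n _ => ?_
    congr 1
    · exact Finset.prod_congr rfl fun j _ => (hx1 _ j).symm
    · exact Finset.prod_congr rfl fun j _ => (hx2 _ j).symm
  have hext2 : IsKolmogorovExtension 𝒴 μ Φ ℓ →
      ∀ (g : Fin m → ℤ → G) (L : Fin m → Polynomial ℝ), (∀ j n, ℓ (g j n) = (L j).eval (n : ℝ)) →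
        Spread L → (∀ j, SingleAverages μ Φ (g j)) →
        ((∀ e : Fin m → X → ℂ, (∀ j, Measurable[𝒴] (e j) ∧ ∃ C : ℝ, ∀ x, ‖e j x‖ ≤ C) →
          ∀ᵐ x ∂μ, ∃ A, Tendsto (fun N : ℕ => avg N fun n => ∏ j, e j (Φ (g j n) x))
            atTop (𝓝 A)) →
          ∀ f : Fin m → X → ℂ, (∀ j, MemLp (f j) ∞ μ) → ∀ᵐ x ∂μ, ∃ A, Tendsto
            (fun N : ℕ => avg N fun n => ∏ j, f j (Φ (g j n) x)) atTop (𝓝 A)) := by
    intro h𝒴 q L hq hL hsing hbase f hf
    have h1 := hext h𝒴 q L hq hL hsing f hf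
    obtain ⟨g, hg, hfg⟩ := hBM f hf
    obtain ⟨𝒜, hY𝒜, hfil, -⟩ := h𝒴.exists_filtration
    choose e he heY hee hfe using fun j => exists_cond (μ := μ) (hY𝒜.trans hfil.le) (hg j)
    have h2 := hbase e (fun j => ⟨heY j, (he j).2⟩)
    have h3 := hrep hfil.measurePreserving q
      (fun j => μ[f j | 𝒴]) e (fun j => (condExp_congr_ae (hfg j)).trans (hee j).symm)
    filter_upwards [h1, h2, h3] with x hx1 hx2 hx3
    obtain ⟨A, hA⟩ := hx2
    refine ⟨0 + A, (hx1.add hA).congr fun N => ?_⟩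
    have h4 : avg N (fun n => ∏ j, (μ[f j | 𝒴]) (Φ (q j n) x)) =
        avg N (fun n => ∏ j, e j (Φ (q j n) x)) := by
      congr 1
      funext n
      exact Finset.prod_congr rfl fun j _ => hx3 n j
    rw [h4]
    ring
  -- actions
  have hact : IsKolmogorovAction μ Φ ℓ →
      ∀ (g : Fin m → ℤ → G) (L : Fin m → Polynomial ℝ), (∀ j n, ℓ (g j n) = (L j).eval (n : ℝ)) →
        Spread L → (∀ j, SingleAverages μ Φ (g j)) →
        ∀ f : Fin m → X → ℂ, (∀ j, MemLp (f j) ∞ μ) → ∀ᵐ x ∂μ, Tendsto (fun N : ℕ =>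
          avg N fun n => ∏ j, f j (Φ (g j n) x)) atTop (𝓝 (∏ j, ∫ y, f j y ∂μ)) := by
    intro hKA q L hq hL hsing f hf
    choose g hg hfg using fun j => BM_of_memLp (hf j)
    obtain ⟨𝒜, hfil, htail⟩ := hKA
    have hK : KExt μ 𝒜 ⊥ Φ ℓ := by
      refine kext hfil (fun g => ?_) bot_le fun B hB => ?_
      · intro s hs
        rcases MeasurableSpace.measurableSet_bot_iff.1 hs with rfl | rfl
        · simp
        · simp
      · rcases htail B hB with h | h
        · exact ⟨∅, MeasurableSpace.measurableSet_empty ⊥, ae_eq_empty.2 h⟩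
        · refine ⟨Set.univ, @MeasurableSet.univ X ⊥, ?_⟩
          have hB' : MeasurableSet[mX] B := by
            have h3 := hB 1
            rw [map_one] at h3
            have h4 : 𝒜.comap ((1 : Equiv.Perm X) : X → X) = 𝒜 := by
              rw [Equiv.Perm.coe_one]
              exact MeasurableSpace.comap_id
            rw [h4] at h3
            exact hfil.le _ h3
          rw [ae_eq_univ]
          exact (prob_compl_eq_zero_iff hB').2 h
    have hgi : ∀ j, Integrable (g j) μ := by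
      intro j
      obtain ⟨h5, C, h6⟩ := hg j
      exact Integrable.of_bound h5.aestronglyMeasurable C (Eventually.of_forall h6)
    have hmain := seq_two hK hq hL.1 hL.2 (fun j => maj hfil.measurePreserving (hsing j))
      hg (e := fun j _ => ∫ y, g j y ∂μ)
      (fun j => ⟨measurable_const, ‖∫ y, g j y ∂μ‖, fun x => le_rfl⟩)
      (fun j => @measurable_const _ _ _ ⊥ _) (fun j B hB => by
        rcases MeasurableSpace.measurableSet_bot_iff.1 hB with rfl | rfl
        · simp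
        · rw [setIntegral_univ, integral_sub (hgi j) (integrable_const _)]
          simp)
    have h1 := hrep hfil.measurePreserving q f g hfg
    have h2 : ∏ j, ∫ y, f j y ∂μ = ∏ j, ∫ y, g j y ∂μ :=
      Finset.prod_congr rfl fun j _ => integral_congr_ae (hfg j)
    filter_upwards [hmain, h1] with x hx hx1
    rw [h2]
    have h3 : Tendsto (fun N : ℕ => ((2 * N + 1 : ℕ) : ℂ)⁻¹ *
        ∑ n ∈ Finset.Icc (-(N : ℤ)) (N : ℤ), (∏ j, g j (Φ (q j n) x) -
          ∏ j, ∫ y, g j y ∂μ) + ∏ j, ∫ y, g j y ∂μ) atTop (𝓝 (0 + ∏ j, ∫ y, g j y ∂μ)) :=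
      hx.add_const _
    rw [zero_add] at h3
    refine h3.congr fun N => ?_
    unfold avg
    have hpos : ((2 * N + 1 : ℕ) : ℂ) ≠ 0 := by
      exact_mod_cast Nat.succ_ne_zero (2 * N)
    have hcard : ((N : ℤ) + 1 - -(N : ℤ)).toNat = 2 * N + 1 := by omega
    rw [Finset.sum_sub_distrib, mul_sub, Finset.sum_const, Int.card_Icc, hcard, nsmul_eq_mul,
      ← mul_assoc, inv_mul_cancel₀ hpos, one_mul, sub_add_cancel]
    congr 1
    refine Finset.sum_congr rfl fun n _ => ?_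
    exact Finset.prod_congr rfl fun j _ => (hx1 _ j).symm
  refine ⟨fun h𝒴 g L hg hL hs => ⟨hext h𝒴 g L hg hL hs, hext2 h𝒴 g L hg hL hs⟩, hact, ?_, ?_⟩
  · intro h𝒴 t P hL hs
    obtain ⟨𝒜, hY𝒜, hfil, -⟩ := h𝒴.exists_filtration
    have hpos : ∀ j n, ℓ (polySeq t (P j) n) = (position ℓ t (P j)).eval (n : ℝ) :=
      fun j n => eval_position hfil.hom t (P j) n
    exact ⟨hext h𝒴 (fun j => polySeq t (P j)) _ hpos hL hs,
      hext2 h𝒴 (fun j => polySeq t (P j)) _ hpos hL hs⟩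
  · intro hKA t P hL hs
    have hKA' := hKA
    obtain ⟨𝒜, hfil, -⟩ := hKA'
    exact hact hKA (fun j => polySeq t (P j)) _
      (fun j n => eval_position hfil.hom t (P j) n) hL hs

end Pool.Agent.Results.MP_4d8f14_an.KolmogorovPolynomials
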